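import Mathlib
import Pool.Agent.Lib.MP_ecc084_pr.Defs
import Pool.Agent.Lib.MP_ecc084_pr.Tip
import Pool.Agent.Lib.MP_ecc084_pr.TwoDim


/-!
A counterexample to pointwise entropic repulsion (E) on the square lattice.

The spectral density is `|l 1|^(-1/2)` on `[-π, π]^2`.  The columns of the field are independent,
all of (S), (N), (C), (D), (O) hold with `α = 3/2`, but at the tip `(n, 0)` of the ball `B(n)` the
conditional mean stays bounded while the equilibrium potential is at least `1`.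
-/

open MeasureTheory ProbabilityTheory Filter Topology Metric
open scoped InnerProductSpace
open Pool.Agent.Lib.MP_ecc084_pr

namespace Pool.Agent.Results.MP_ecc084_pr.Counter

theorem result :
    ∃ (Ω : Type) (_ : MeasurableSpace Ω) (P : Measure Ω) (f : (Fin 2 → ℤ) → Ω → ℝ)
      (μ : Measure (EuclideanSpace ℝ (Fin 2))) (α : ℝ),
      -- a centred non-degenerate Gaussian field on the lattice
      IsProbabilityMeasure P ∧ (∀ x, Measurable (f x)) ∧ IsGaussianProcess f P ∧
      (∀ x, ∫ ω, f x ω ∂P = 0) ∧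
      (∀ (I : Finset (Fin 2 → ℤ)) (c : (Fin 2 → ℤ) → ℝ), (∃ x ∈ I, c x ≠ 0) →
        0 < variance (fun ω => ∑ x ∈ I, c x * f x ω) P) ∧
      -- stationary, with spectral measure μ
      IsFiniteMeasure μ ∧ μ.map (fun l => -l) = μ ∧ μ {l | ∃ i, Real.pi < |l i|} = 0 ∧
      (∀ x y, ((∫ ω, f x ω * f y ω ∂P : ℝ) : ℂ) = fourierOf μ (fun _ => 1) (x - y)) ∧
      -- (S)
      (0 ≤ α ∧ α < 2 ∧
        Tendsto (fun δ : ℝ => Real.log (μ.real (closedBall 0 δ)) / Real.log δ) (𝓝[>] 0) (𝓝 α)) ∧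
      -- (N), with μ absolutely continuous
      (μ ≠ 0 ∧ μ.AbsolutelyContinuous volume) ∧
      -- (C)
      (∀ ε : ℝ, 0 < ε → Tendsto
        (fun T : ℝ => cap μ (latBall 2 (T + T ^ (1 - ε))) / cap μ (latBall 2 T)) atTop (𝓝 1)) ∧
      -- (D)
      (∃ c : ℝ, 0 < c ∧ ∀ δ : ℝ, 0 < δ →
        μ.real (closedBall 0 (2 * δ)) ≤ c * μ.real (closedBall 0 δ)) ∧
      -- (O)
      (∃ c : ℝ, 0 < c ∧ ∀ (u : EuclideanSpace ℝ (Fin 2)) (δ : ℝ), 0 < δ →
        μ.real (closedBall u δ) ≤ c * μ.real (closedBall 0 δ)) ∧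
      -- the conditioning and the equilibrium potentials make sense
      (∀ T : ℝ, P {ω | ∀ y ∈ latBall 2 T, 0 ≤ f y ω} ≠ 0) ∧
      (∀ T : ℝ, ∃ h, IsEqPot μ (latBall 2 T) h) ∧
      -- (E) fails
      ∀ h : ℝ → (Fin 2 → ℤ) → ℝ, (∀ T, IsEqPot μ (latBall 2 T) (h T)) →
        ¬ Tendsto (fun T : ℝ => ⨆ x : latBall 2 T,
            |(√(2 * μ.real Set.univ * (2 - α) * Real.log T))⁻¹ *
              (∫ ω, f x ω ∂(cond P {ω | ∀ y ∈ latBall 2 T, 0 ≤ f y ω})) - h T x|)
          atTop (𝓝 0) := by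
  obtain ⟨f, hm, hG, h0, hcov, hpos⟩ := exists_gaussian (chi (pm nu2))
  have hK : ∀ x y, ∫ ω, f x ω * f y ω ∂iidNormal = Kc (pm nu2) (x - y) := by
    intro x y
    rw [hcov, real_inner_chi_chi _ mu_symm]
  have hL2 : ∀ y, MemLp (f y) 2 iidNormal := fun y => (hG.hasGaussianLaw_eval y).memLp_two
  refine ⟨ℕ → ℝ, inferInstance, iidNormal, f, pm nu2, 3 / 2, inferInstance, hm, hG, h0, ?_,
    inferInstance, mu_symm, mu_supp, ?_, ⟨by norm_num, by norm_num, cond_S⟩,
    ⟨mu_ne_zero, mu_ac⟩, fun ε hε => cond_C hε, cond_D, cond_O, ?_,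
    fun T => exists_eqPot _ (finite_latBall T), ?_⟩
  · intro I c hc
    have hmeas : AEMeasurable (fun ω => ∑ x ∈ I, c x * f x ω) iidNormal :=
      (Finset.measurable_fun_sum I (fun x _ => (hm x).const_mul _)).aemeasurable
    rw [← covariance_self hmeas, covariance_fun_sum_fun_sum' (fun x _ => (hL2 x).const_mul _)
      (fun x _ => (hL2 x).const_mul _)]
    refine lt_of_lt_of_eq (nondeg I c hc) ?_
    refine Finset.sum_congr rfl (fun x _ => Finset.sum_congr rfl (fun y _ => ?_))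
    rw [covariance_const_mul_left, covariance_const_mul_right, covariance_eq_sub (hL2 x) (hL2 y),
      ← hK]
    simp [h0, mul_assoc]
  · intro x y
    rw [hK, fourierOf_one_eq _ mu_symm]
  · intro T
    obtain ⟨g, hg⟩ := exists_feasible (pm nu2) mu_ball_pos (finite_latBall T).toFinset
    exact hpos _ (finite_latBall T) g
      (fun x hx => lt_of_lt_of_le one_pos (hg x ((finite_latBall T).mem_toFinset.2 hx)))
  · intro h hh hlim
    obtain ⟨C, hC⟩ := tip_bound hm hG h0 (Kc (pm nu2) 0)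
    have hl : Tendsto (fun T : ℝ => (√(2 * (pm nu2).real Set.univ * (2 - 3 / 2) * Real.log T))⁻¹ * C)
        atTop (𝓝 0) := by
      have h1 : Tendsto (fun T : ℝ => 2 * (pm nu2).real Set.univ * (2 - 3 / 2) * Real.log T)
          atTop atTop :=
        Real.tendsto_log_atTop.const_mul_atTop (by have := mu_univ_pos; positivity)
      have h2 := (Real.tendsto_sqrt_atTop.comp h1).inv_tendsto_atTop.mul_const C
      simpa using h2
    have hsum := (hlim.add hl).comp tendsto_natCast_atTop_atTop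
    rw [add_zero] at hsum
    obtain ⟨n, hn⟩ := (hsum.eventually (gt_mem_nhds (zero_lt_one' ℝ))).exists
    simp only [Function.comp] at hn
    have hn0 : (0 : ℝ) ≤ n := Nat.cast_nonneg n
    have hx : (![(n : ℤ), 0] : Fin 2 → ℤ) ∈ latBall 2 (n : ℝ) := by
      rw [mem_latBall_iff hn0]
      simp
    have hb := hC (latBall 2 (n : ℝ)) ![(n : ℤ), 0] (finite_latBall _).countable hx
      (by rw [hK, sub_self]) (by
        intro y hy hne
        rw [hK, Kc_col]
        intro hy0
        apply hne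
        have hy0' : y 0 = n := by
          simp only [Pi.sub_apply, Matrix.cons_val_zero] at hy0
          omega
        have hy' := (mem_latBall_iff hn0 y).1 hy
        rw [hy0'] at hy'
        have hy1 : (y 1 : ℝ) = 0 := by
          push_cast at hy'
          nlinarith [sq_nonneg (y 1 : ℝ)]
        ext i
        fin_cases i
        · simpa using hy0'
        · simpa using hy1)
    have hfin : Finite (latBall 2 (n : ℝ)) := (finite_latBall _).to_subtype
    have hle := le_ciSup (f := fun x : latBall 2 (n : ℝ) =>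
      |(√(2 * (pm nu2).real Set.univ * (2 - 3 / 2) * Real.log n))⁻¹ *
        (∫ ω, f x ω ∂(cond iidNormal {ω | ∀ y ∈ latBall 2 (n : ℝ), 0 ≤ f y ω})) - h n x|)
      (Set.finite_range _).bddAbove ⟨_, hx⟩
    obtain ⟨g, hg, -⟩ := hh n
    have h1 := hg.2 _ hx
    set r : ℝ := (√(2 * (pm nu2).real Set.univ * (2 - 3 / 2) * Real.log n))⁻¹ with hr
    have hr0 : 0 ≤ r := by positivity
    have h2 := mul_le_mul_of_nonneg_left ((le_abs_self _).trans hb) hr0
    have h3 := neg_abs_le (r * (∫ ω, f ![(n : ℤ), 0] ω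
      ∂(cond iidNormal {ω | ∀ y ∈ latBall 2 (n : ℝ), 0 ≤ f y ω})) - h n ![(n : ℤ), 0])
    simp only at hle
    linarith

end Pool.Agent.Results.MP_ecc084_pr.Counter
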