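import Mathlib
import Pool.Agent.Lib.MP_ecc084_pr.Defs
import Pool.Agent.Lib.MP_ecc084_pr.IN.J

/-!
A counterexample to pointwise entropic repulsion (E) deep inside the ball, on `ℤ`, under all of
(S), (N), (C), (D), (O).

The spectral measure is absolutely continuous.  For every `θ > 0` the difference between the
normalised conditional mean and the equilibrium potential is unbounded on `B(θ T)` as `T → ∞`.
-/

open MeasureTheory ProbabilityTheory Filter Topology Metric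
open scoped InnerProductSpace
open Pool.Agent.Lib.MP_ecc084_pr

namespace Pool.Agent.Results.MP_ecc084_pr.Interior

theorem result :
    ∃ (Ω : Type) (_ : MeasurableSpace Ω) (P : Measure Ω) (f : (Fin 1 → ℤ) → Ω → ℝ)
      (μ : Measure (EuclideanSpace ℝ (Fin 1))) (α : ℝ),
      -- a centred non-degenerate Gaussian field on the lattice
      IsProbabilityMeasure P ∧ (∀ x, Measurable (f x)) ∧ IsGaussianProcess f P ∧
      (∀ x, ∫ ω, f x ω ∂P = 0) ∧
      (∀ (I : Finset (Fin 1 → ℤ)) (c : (Fin 1 → ℤ) → ℝ), (∃ x ∈ I, c x ≠ 0) →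
        0 < variance (fun ω => ∑ x ∈ I, c x * f x ω) P) ∧
      -- stationary, with spectral measure μ
      IsFiniteMeasure μ ∧ μ.map (fun l => -l) = μ ∧ μ {l | ∃ i, Real.pi < |l i|} = 0 ∧
      (∀ x y, ((∫ ω, f x ω * f y ω ∂P : ℝ) : ℂ) = fourierOf μ (fun _ => 1) (x - y)) ∧
      -- (S)
      (0 ≤ α ∧ α < 1 ∧ (∀ δ : ℝ, 0 < δ → 0 < μ.real (closedBall 0 δ)) ∧
        Tendsto (fun δ : ℝ => Real.log (μ.real (closedBall 0 δ)) / Real.log δ) (𝓝[>] 0) (𝓝 α)) ∧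
      -- (N), with μ absolutely continuous
      (μ ≠ 0 ∧ μ.AbsolutelyContinuous volume) ∧
      -- (C)
      (∀ ε : ℝ, 0 < ε → Tendsto
        (fun T : ℝ => cap μ (latBall 1 (T + T ^ (1 - ε))) / cap μ (latBall 1 T)) atTop (𝓝 1)) ∧
      -- (D)
      (∃ c : ℝ, 0 < c ∧ ∀ δ : ℝ, 0 < δ →
        μ.real (closedBall 0 (2 * δ)) ≤ c * μ.real (closedBall 0 δ)) ∧
      -- (O)
      (∃ c : ℝ, 0 < c ∧ ∀ (u : EuclideanSpace ℝ (Fin 1)) (δ : ℝ), 0 < δ →
        μ.real (closedBall u δ) ≤ c * μ.real (closedBall 0 δ)) ∧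
      -- the conditioning and the equilibrium potentials make sense
      (∀ T : ℝ, P {ω | ∀ y ∈ latBall 1 T, 0 ≤ f y ω} ≠ 0) ∧
      (∀ T : ℝ, ∃ h, IsEqPot μ (latBall 1 T) h) ∧
      ∀ h : ℝ → (Fin 1 → ℤ) → ℝ, (∀ T, IsEqPot μ (latBall 1 T) (h T)) →
        -- the difference is unbounded on every concentric ball `B(θ T)`
        (∀ θ : ℝ, 0 < θ → θ ≤ 1 → ∀ C : ℝ, ∃ᶠ T : ℝ in atTop, ∃ x ∈ latBall 1 (θ * T),
          C ≤ |(√(2 * μ.real Set.univ * (1 - α) * Real.log T))⁻¹ *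
              (∫ ω, f x ω ∂(cond P {ω | ∀ y ∈ latBall 1 T, 0 ≤ f y ω})) - h T x|) ∧
        -- (E) fails
        ¬ Tendsto (fun T : ℝ => ⨆ x : latBall 1 T,
            |(√(2 * μ.real Set.univ * (1 - α) * Real.log T))⁻¹ *
              (∫ ω, f x ω ∂(cond P {ω | ∀ y ∈ latBall 1 T, 0 ≤ f y ω})) - h T x|)
          atTop (𝓝 0) := by
  choose f hm hG h0 hcov hpos using fun σ : ℕ → Bool => exists_gaussian (chi (BK.sy (IN.nu σ)))
  have hK : ∀ σ x y, ∫ ω, f σ x ω * f σ y ω ∂iidNormal = Kc (BK.sy (IN.nu σ)) (x - y) := by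
    intro σ x y
    rw [hcov, real_inner_chi_chi _ (BK.sy_symm _)]
  have hU : ∀ σ, (BK.sy (IN.nu σ)).real Set.univ = 6 := fun σ => by
    rw [BK.sy_univ, IN.nu_univ]
    norm_num
  obtain ⟨n, hn⟩ : ∃ n : ℕ → ℝ, ∀ k, n k = IN.TT k + IN.WW k := ⟨_, fun _ => rfl⟩
  have hmem : ∀ k (x : Fin 1 → ℤ), |(x 0 : ℝ)| ≤ n k ↔ |x 0| ≤ IN.TT k + IN.WW k := by
    intro k x
    rw [hn]
    exact_mod_cast Iff.rfl
  obtain ⟨σ, hσ⟩ := BK.exists_bad (fun σ k => ∃ h, IsEqPot (BK.sy (IN.nu σ)) (latBall 1 (n k)) h ∧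
    ∀ i < IN.WW k, |(√(2 * 6 * (1 - IN.alI σ) * Real.log (n k)))⁻¹ *
      (∫ ω, f σ (fun _ => i) ω ∂(cond iidNormal {ω | ∀ y ∈ latBall 1 (n k), 0 ≤ f σ y ω})) -
        h fun _ => i| < 2 ^ k) (by
    rintro σ τ k hlt h1 h2 ⟨u, u1, u2⟩ ⟨v, v1, v2⟩
    have hWT := IN.WW_le_TT k
    have hKK : ∀ x ∈ latBall 1 (n k), ∀ y ∈ latBall 1 (n k),
        Kc (BK.sy (IN.nu σ)) (x - y) = Kc (BK.sy (IN.nu τ)) (x - y) := by
      intro x hx y hy
      have a1 := (hmem k x).1 (BK.mem_latBall_one.1 hx)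
      have a2 := (hmem k y).1 (BK.mem_latBall_one.1 hy)
      have a3 := abs_sub (x 0) (y 0)
      rw [BK.Kc_sy, BK.Kc_sy, IN.cos_nu_eq hlt (by rw [Pi.sub_apply]; omega)]
    obtain ⟨p, e, hp⟩ := IN.exists_equi _ (BK.sy_symm _) (IN.ball_pos σ)
      (IN.lb_nonempty (show 0 ≤ n k by rw [hn]; positivity))
    have hc : ∀ x, x ∈ IN.lb (n k) ↔ x ∈ latBall 1 (n k) := fun x => Set.Finite.mem_toFinset _
    have hq := hp.congr fun x hx y hy => hKK x ((hc x).1 hx) y ((hc y).1 hy)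
    obtain ⟨i, hi, hi2⟩ := IN.height σ k (fun x => IN.mem_lb.trans (hmem k x)) hp
    have hx : (fun _ => (i : ℤ)) ∈ latBall 1 (n k) :=
      BK.mem_latBall_one.2 ((hmem k fun _ => i).2 (by rw [Nat.abs_cast]; omega))
    rw [← IN.coe_lb] at u1 v1
    have e1 := hp.pot_eq _ (BK.sy_symm _) (IN.ball_pos σ) u1 fun _ => i
    have e2 := hq.pot_eq _ (BK.sy_symm _) (IN.ball_pos τ) v1 fun _ => i
    rw [← Finset.sum_congr rfl fun y hy => by rw [← hKK _ hx y ((hc y).1 hy)], ← e1] at e2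
    have g1 := u2 i hi
    have g2 := v2 i hi
    rw [BK.cond_mean_eq (hm σ) (hm τ) (hG σ) (hG τ) (h0 σ) (h0 τ) (BK.finite_latBall_one _)
      (fun x hx y hy => by rw [hK, hK, hKK x hx y hy]) hx] at g1
    rw [e2] at g2
    rw [← e1] at hi2
    obtain ⟨b1, b2, b3⟩ := IN.al_mem σ 0
    exact IN.ratio_contra k (by linarith) (by linarith) (by linarith [IN.alI_gap hlt h1 h2])
      hi2 g1 g2)
  have hL2 : ∀ y, MemLp (f σ y) 2 iidNormal := fun y => ((hG σ).hasGaussianLaw_eval y).memLp_two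
  obtain ⟨b1, b2, b3⟩ := IN.al_mem σ 0
  refine ⟨ℕ → ℝ, inferInstance, iidNormal, f σ, BK.sy (IN.nu σ), IN.alI σ, inferInstance, hm σ,
    hG σ, h0 σ, ?_, inferInstance, BK.sy_symm _, BK.sy_supp (IN.nu_supp σ), ?_,
    ⟨by linarith, by linarith, IN.ball_pos σ, IN.cond_S σ⟩, ⟨?_, BK.sy_ac (IN.nu_ac σ)⟩,
    fun ε hε => IN.cond_C σ hε, ⟨50, by norm_num, IN.cond_D σ⟩, ⟨25, by norm_num, IN.cond_O σ⟩,
    ?_, ?_, ?_⟩
  · intro I c hc
    have hmeas : AEMeasurable (fun ω => ∑ x ∈ I, c x * f σ x ω) iidNormal :=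
      (Finset.measurable_fun_sum I (fun x _ => (hm σ x).const_mul _)).aemeasurable
    rw [← covariance_self hmeas, covariance_fun_sum_fun_sum' (fun x _ => (hL2 x).const_mul _)
      (fun x _ => (hL2 x).const_mul _)]
    refine lt_of_lt_of_eq (BK.nondeg_sy _ (IN.wh_le_nu σ) I c hc) ?_
    refine Finset.sum_congr rfl (fun x _ => Finset.sum_congr rfl (fun y _ => ?_))
    rw [covariance_const_mul_left, covariance_const_mul_right, covariance_eq_sub (hL2 x) (hL2 y),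
      ← hK]
    simp [h0, mul_assoc]
  · intro x y
    rw [hK, fourierOf_one_eq _ (BK.sy_symm _)]
  · intro h
    have h1 := hU σ
    rw [h] at h1
    simp at h1
  · intro T
    obtain ⟨g, hg⟩ := exists_feasible _ (IN.ball_pos σ) (BK.finite_latBall_one T).toFinset
    exact hpos σ _ (BK.finite_latBall_one T) g
      (fun x hx => lt_of_lt_of_le one_pos (hg x ((BK.finite_latBall_one T).mem_toFinset.2 hx)))
  · intro T
    obtain ⟨c, -, -, -, h4⟩ := cap_spec _ (BK.sy_symm _) (IN.ball_pos σ)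
      (BK.finite_latBall_one T).toFinset
    rwa [Set.Finite.coe_toFinset] at h4
  · intro h hh
    rw [hU]
    have hW : ∀ k : ℕ, ((k : ℝ) + 1) * IN.WW k ≤ n k := fun k => by
      have a1 : (k + 1) * IN.WW k ≤ IN.TT k := Nat.mul_le_mul_right _ (IN.le_AA k)
      rw [hn]
      exact_mod_cast a1.trans (Nat.le_add_right _ _)
    have hW1 : ∀ k, (1 : ℝ) ≤ IN.WW k := fun k => by exact_mod_cast IN.one_le_WW k
    have hfr : ∀ θ : ℝ, 0 < θ → ∀ C : ℝ, ∃ᶠ T : ℝ in atTop, ∃ x ∈ latBall 1 (θ * T),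
        C ≤ |(√(2 * 6 * (1 - IN.alI σ) * Real.log T))⁻¹ *
          (∫ ω, f σ x ω ∂(cond iidNormal {ω | ∀ y ∈ latBall 1 T, 0 ≤ f σ y ω})) - h T x| := by
      intro θ hθ C
      have hlim : Tendsto n atTop atTop := tendsto_atTop_mono (fun k => by
        nlinarith [hW k, hW1 k, Nat.cast_nonneg (α := ℝ) k]) tendsto_natCast_atTop_atTop
      refine hlim.frequently (frequently_atTop.2 fun k₀ => ?_)
      obtain ⟨k₁, hk₁⟩ := pow_unbounded_of_one_lt C (one_lt_two (α := ℝ))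
      obtain ⟨k₂, hk₂⟩ := exists_nat_gt (1 / θ)
      obtain ⟨k, hk, hbad⟩ := hσ (max k₀ (max k₁ k₂))
      simp only [max_le_iff] at hk
      refine ⟨k, hk.1, ?_⟩
      by_contra hcon
      refine hbad ⟨h (n k), hh _, fun i hi => lt_of_not_ge fun hge => hcon ⟨_, ?_, le_trans ?_ hge⟩⟩
      · have a1 : (i : ℝ) ≤ IN.WW k := by exact_mod_cast hi.le
        have a2 : (k₂ : ℝ) ≤ k := by exact_mod_cast hk.2.2
        have a3 := mul_le_mul_of_nonneg_left (hW k) hθ.le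
        rw [div_lt_iff₀ hθ] at hk₂
        have a4 : 1 ≤ θ * (k + 1) := by nlinarith
        rw [BK.mem_latBall_one, Int.cast_natCast, Nat.abs_cast]
        nlinarith [mul_le_mul_of_nonneg_right a4 (zero_le_one.trans (hW1 k))]
      · exact hk₁.le.trans (pow_le_pow_right₀ one_le_two hk.2.1)
    refine ⟨fun θ hθ _ => hfr θ hθ, fun hlim => ?_⟩
    obtain ⟨T, ⟨x, h1, h2⟩, h3⟩ := ((hfr 1 one_pos 1).and_eventually
      (hlim.eventually (gt_mem_nhds (zero_lt_one' ℝ)))).exists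
    rw [one_mul] at h1
    have hfin : Finite (latBall 1 T) := (BK.finite_latBall_one _).to_subtype
    exact absurd (h2.trans (le_ciSup (f := fun x : latBall 1 T =>
      |(√(2 * 6 * (1 - IN.alI σ) * Real.log T))⁻¹ *
        (∫ ω, f σ x ω ∂(cond iidNormal {ω | ∀ y ∈ latBall 1 T, 0 ≤ f σ y ω})) - h T x|)
      (Set.finite_range _).bddAbove ⟨x, h1⟩)) (not_le.2 h3)

end Pool.Agent.Results.MP_ecc084_pr.Interior
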